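import Mathlib

/-!
# One-dimensional grammar vector addition systems (1-GVAS)

Definitions: grammars with integer terminals, derivation trees, thin grammars, derivations from `a`
to `b`, sizes.
-/

set_option autoImplicit false

namespace Pool.Agent.K1H72.OneGVAS

/-- Grammar symbols: a nonterminal (`Sum.inl`) or an integer terminal (`Sum.inr`). -/
abbrev Sym (N : Type) : Type := N ⊕ ℤ

/-- A 1-GVAS: a context-free grammar with integer terminals.  The finite set of nonterminals is the
finite type `N`. -/
structure GVAS (N : Type) where
  /-- the initial nonterminal -/
  start : N
  /-- the finite set of rules `X → α` -/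
  rules : Finset (N × List (Sym N))

mutual
/-- Finite ordered trees whose leaves are labelled by symbols and whose internal nodes are labelled
by nonterminals. -/
inductive DTree (N : Type) : Type
  | leaf (s : Sym N) : DTree N
  | node (X : N) (ts : DForest N) : DTree N

/-- Finite sequences of such trees (the children of an internal node, from left to right). -/
inductive DForest (N : Type) : Type
  | nil : DForest N
  | cons (t : DTree N) (ts : DForest N) : DForest N
end

variable {N : Type}

/-- The label of the root. -/
def DTree.label : DTree N → Sym N
  | .leaf s => s
  | .node X _ => Sum.inl X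

/-- The word of the labels of the roots of a sequence of trees. -/
def DForest.labels : DForest N → List (Sym N)
  | .nil => []
  | .cons t ts => t.label :: ts.labels

mutual
/-- The size of a tree: its number of vertices. -/
def DTree.size : DTree N → ℕ
  | .leaf _ => 1
  | .node _ ts => 1 + ts.size

/-- The total number of vertices of a sequence of trees. -/
def DForest.size : DForest N → ℕ
  | .nil => 0
  | .cons t ts => t.size + ts.size
end

mutual
/-- The yield: the word of the leaf labels read from left to right. -/
def DTree.yield : DTree N → List (Sym N)
  | .leaf s => [s]
  | .node _ ts => ts.yield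

/-- The concatenation of the yields of a sequence of trees. -/
def DForest.yield : DForest N → List (Sym N)
  | .nil => []
  | .cons t ts => t.yield ++ ts.yield
end

mutual
/-- The tree is a derivation of `G`: at each internal node, the labels of the children, read from
left to right, form the right-hand side of a rule for the label of the node. -/
def DTree.IsDerivation (G : GVAS N) : DTree N → Prop
  | .leaf _ => True
  | .node X ts => (X, ts.labels) ∈ G.rules ∧ ts.AreDerivations G

/-- All trees of the sequence are derivations of `G`. -/
def DForest.AreDerivations (G : GVAS N) : DForest N → Prop
  | .nil => True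
  | .cons t ts => t.IsDerivation G ∧ ts.AreDerivations G
end

namespace GVAS

/-- A nonterminal `X` is branching if some `X`-derivation has a yield of the form `α X β X γ`. -/
def Branching (G : GVAS N) (X : N) : Prop :=
  ∃ t : DTree N, t.IsDerivation G ∧ t.label = Sum.inl X ∧
    ∃ α β γ : List (Sym N), t.yield = α ++ [Sum.inl X] ++ β ++ [Sum.inl X] ++ γ

/-- `G` is thin if no nonterminal is branching. -/
def Thin (G : GVAS N) : Prop := ∀ X : N, ¬ G.Branching X

/-- `t` is a derivation of `G` from `a` to `b`: a complete derivation (its yield is a word
`z₁ ⋯ z_k` of integers) from the initial nonterminal such that all `a + z₁ + ⋯ + z_i` are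
nonnegative and `a + z₁ + ⋯ + z_k = b`. -/
def DerivesFromTo (G : GVAS N) (t : DTree N) (a b : ℕ) : Prop :=
  t.IsDerivation G ∧ t.label = Sum.inl G.start ∧
    ∃ z : List ℤ, t.yield = z.map Sum.inr ∧
      (∀ i ≤ z.length, 0 ≤ (a : ℤ) + (z.take i).sum) ∧ (a : ℤ) + z.sum = b

/-- The size of an integer: the number of bits of the binary encoding of its absolute value (the
encoding of `0` has one bit). -/
def bits (n : ℤ) : ℕ := max 1 (Nat.size n.natAbs)

/-- The total size of the integers occurring in a word (each occurrence counted). -/
def wordBits (α : List (Sym N)) : ℕ :=
  (α.map (Sum.elim (fun _ => 0) bits)).sum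

/-- The size of a 1-GVAS: the number of nonterminals, plus the number of rules, plus the total
length of the right-hand sides, plus the total size of the integers in the right-hand sides. -/
def size [Fintype N] (G : GVAS N) : ℕ :=
  Fintype.card N + G.rules.card + ∑ r ∈ G.rules, r.2.length + ∑ r ∈ G.rules, wordBits r.2

end GVAS

end Pool.Agent.K1H72.OneGVAS
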