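import Pool.Agent.K1H72.GVAS.Basic

/-!
# Derivations as relations with sizes; a criterion for thin grammars
-/

set_option autoImplicit false

namespace Pool.Agent.K1H72.OneGVAS

variable {N : Type}

/-- runs of a word of integers -/
def Run : ℤ → List ℤ → ℤ → Prop
  | x, [], y => 0 ≤ x ∧ x = y
  | x, n :: z, y => 0 ≤ x ∧ Run (x + n) z y

theorem run_iff (z : List ℤ) : ∀ x y : ℤ, Run x z y ↔
    (∀ i ≤ z.length, 0 ≤ x + (z.take i).sum) ∧ x + z.sum = y := by
  induction z with
  | nil => intro x y; simp [Run]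
  | cons n z ih =>
    intro x y
    simp only [Run, ih, List.length_cons, List.sum_cons]
    constructor
    · rintro ⟨h0, h1, h2⟩
      refine ⟨?_, by omega⟩
      intro i hi
      cases i with
      | zero => simpa using h0
      | succ i =>
        have := h1 i (by omega)
        simp only [List.take_succ_cons, List.sum_cons]
        omega
    · rintro ⟨h1, h2⟩
      refine ⟨by simpa using h1 0 (by omega), ?_, by omega⟩
      intro i hi
      have := h1 (i + 1) (by omega)
      simp only [List.take_succ_cons, List.sum_cons] at this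
      omega

theorem run_append (z z' : List ℤ) : ∀ x y : ℤ, Run x (z ++ z') y ↔ ∃ w, Run x z w ∧ Run w z' y := by
  induction z with
  | nil =>
    intro x y
    simp only [List.nil_append, Run]
    constructor
    · intro h
      refine ⟨x, ⟨?_, rfl⟩, h⟩
      cases z' with
      | nil => exact h.1
      | cons n z' => exact h.1
    · rintro ⟨w, ⟨h0, rfl⟩, h⟩
      exact h
  | cons n z ih =>
    intro x y
    simp only [List.cons_append, Run, ih]
    constructor
    · rintro ⟨h0, w, h1, h2⟩
      exact ⟨w, ⟨h0, h1⟩, h2⟩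
    · rintro ⟨w, ⟨h0, h1⟩, h2⟩
      exact ⟨h0, w, h1, h2⟩

/-- complete derivation of size `n` from the symbol `s`, leading from `x` to `y` -/
def Der (G : GVAS N) (s : Sym N) (n : ℕ) (x y : ℤ) : Prop :=
  ∃ t : DTree N, t.IsDerivation G ∧ t.label = s ∧ t.size = n ∧
    ∃ z : List ℤ, t.yield = z.map Sum.inr ∧ Run x z y

/-- complete derivations from the symbols of a word -/
def DerL (G : GVAS N) (α : List (Sym N)) (n : ℕ) (x y : ℤ) : Prop :=
  ∃ ts : DForest N, ts.AreDerivations G ∧ ts.labels = α ∧ ts.size = n ∧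
    ∃ z : List ℤ, ts.yield = z.map Sum.inr ∧ Run x z y

theorem derL_nil (G : GVAS N) (n : ℕ) (x y : ℤ) : DerL G [] n x y ↔ n = 0 ∧ 0 ≤ x ∧ x = y := by
  constructor
  · rintro ⟨ts, h1, h2, h3, z, h4, h5⟩
    cases ts with
    | cons t ts => simp [DForest.labels] at h2
    | nil =>
      simp only [DForest.yield] at h4
      obtain rfl : z = [] := by simpa using h4
      simp only [DForest.size] at h3
      exact ⟨h3.symm, h5⟩
  · rintro ⟨rfl, h⟩
    exact ⟨.nil, by simp [DForest.AreDerivations], rfl, rfl, [], rfl, h⟩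

theorem derL_cons (G : GVAS N) (s : Sym N) (α : List (Sym N)) (n : ℕ) (x y : ℤ) :
    DerL G (s :: α) n x y ↔ ∃ n₁ n₂ w, n = n₁ + n₂ ∧ Der G s n₁ x w ∧ DerL G α n₂ w y := by
  constructor
  · rintro ⟨ts, h1, h2, h3, z, h4, h5⟩
    cases ts with
    | nil => simp [DForest.labels] at h2
    | cons t ts =>
      simp only [DForest.labels, List.cons.injEq] at h2
      simp only [DForest.yield] at h4
      simp only [DForest.size] at h3
      simp only [DForest.AreDerivations] at h1
      obtain ⟨z1, z2, rfl, e1, e2⟩ := List.map_eq_append_iff.1 h4.symm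
      obtain ⟨w, r1, r2⟩ := (run_append _ _ _ _).1 h5
      refine ⟨t.size, ts.size, w, h3.symm, ?_, ?_⟩
      · exact ⟨t, h1.1, h2.1, rfl, z1, e1.symm, r1⟩
      · exact ⟨ts, h1.2, h2.2, rfl, z2, e2.symm, r2⟩
  · rintro ⟨n₁, n₂, w, rfl, ⟨t, a1, a2, a3, z1, a4, a5⟩, ⟨ts, b1, b2, b3, z2, b4, b5⟩⟩
    refine ⟨.cons t ts, ?_, ?_, ?_, z1 ++ z2, ?_, ?_⟩
    · simp only [DForest.AreDerivations]; exact ⟨a1, b1⟩
    · simp only [DForest.labels, a2, b2]
    · simp only [DForest.size, a3, b3]
    · simp only [DForest.yield, a4, b4, List.map_append]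
    · exact (run_append _ _ _ _).2 ⟨w, a5, b5⟩

theorem der_int (G : GVAS N) (k : ℤ) (n : ℕ) (x y : ℤ) :
    Der G (Sum.inr k) n x y ↔ n = 1 ∧ 0 ≤ x ∧ 0 ≤ y ∧ y = x + k := by
  constructor
  · rintro ⟨t, h1, h2, h3, z, h4, h5⟩
    cases t with
    | node X ts => simp [DTree.label] at h2
    | leaf s =>
      simp only [DTree.label] at h2
      subst h2
      simp only [DTree.yield] at h4
      simp only [DTree.size] at h3
      cases z with
      | nil => simp at h4
      | cons n' z =>
        simp only [List.map_cons, List.cons.injEq, Sum.inr.injEq] at h4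
        obtain ⟨rfl, h4⟩ := h4
        obtain rfl : z = [] := by simpa using h4.symm
        obtain ⟨p, q, r⟩ := h5
        exact ⟨h3.symm, p, by omega, r.symm⟩
  · rintro ⟨rfl, h0, h1, rfl⟩
    refine ⟨DTree.leaf (Sum.inr k), ?_, rfl, ?_, [k], ?_, ⟨h0, h1, rfl⟩⟩
    · simp [DTree.IsDerivation]
    · simp [DTree.size]
    · simp [DTree.yield]

theorem der_nt (G : GVAS N) (X : N) (n : ℕ) (x y : ℤ) :
    Der G (Sum.inl X) n x y ↔ ∃ α n', (X, α) ∈ G.rules ∧ n = 1 + n' ∧ DerL G α n' x y := by
  constructor
  · rintro ⟨t, h1, h2, h3, z, h4, h5⟩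
    cases t with
    | leaf s =>
      simp only [DTree.label] at h2
      subst h2
      simp only [DTree.yield] at h4
      cases z with
      | nil => simp at h4
      | cons n' z => simp at h4
    | node X' ts =>
      simp only [DTree.label, Sum.inl.injEq] at h2
      subst h2
      simp only [DTree.IsDerivation] at h1
      simp only [DTree.size] at h3
      simp only [DTree.yield] at h4
      exact ⟨ts.labels, ts.size, h1.1, h3.symm, ts, h1.2, rfl, rfl, z, h4, h5⟩
  · rintro ⟨α, n', h1, rfl, ts, h2, rfl, rfl, z, h4, h5⟩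
    refine ⟨DTree.node X ts, ?_, rfl, ?_, z, ?_, h5⟩
    · simp only [DTree.IsDerivation]; exact ⟨h1, h2⟩
    · simp only [DTree.size]
    · simp only [DTree.yield]; exact h4

theorem derL_nonneg (G : GVAS N) (α : List (Sym N)) (n : ℕ) (x y : ℤ) (h : DerL G α n x y) :
    0 ≤ x ∧ 0 ≤ y := by
  obtain ⟨ts, -, -, -, z, -, h⟩ := h
  rw [run_iff] at h
  refine ⟨by simpa using h.1 0 (by omega), ?_⟩
  have := h.1 z.length le_rfl
  simp only [List.take_length] at this
  omega

theorem der_nonneg (G : GVAS N) (s : Sym N) (n : ℕ) (x y : ℤ) (h : Der G s n x y) :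
    0 ≤ x ∧ 0 ≤ y := by
  obtain ⟨t, -, -, -, z, -, h⟩ := h
  rw [run_iff] at h
  refine ⟨by simpa using h.1 0 (by omega), ?_⟩
  have := h.1 z.length le_rfl
  simp only [List.take_length] at this
  omega

/-! ### thin grammars -/

variable [DecidableEq N]

/-- number of occurrences of a nonterminal in a word -/
def occ (X : N) (α : List (Sym N)) : ℕ := α.countP fun s => decide (s = Sum.inl X)

theorem occ_append (X : N) (α β : List (Sym N)) : occ X (α ++ β) = occ X α + occ X β := by
  simp [occ]

theorem occ_cons (X : N) (s : Sym N) (α : List (Sym N)) :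
    occ X (s :: α) = occ X α + if s = Sum.inl X then 1 else 0 := by
  simp [occ, List.countP_cons]

mutual
theorem occ_yield_le (G : GVAS N) (rank : N → ℕ)
    (hr : ∀ X α, (X, α) ∈ G.rules → occ X α ≤ 1 ∧
      ∀ Y, Sum.inl Y ∈ α → Y = X ∨ rank Y < rank X) (X : N) :
    ∀ t : DTree N, t.IsDerivation G →
      (∀ Y, t.label = Sum.inl Y → rank Y < rank X ∨ rank Y = rank X) →
        occ X t.yield ≤ if t.label = Sum.inl X then 1 else 0
  | DTree.leaf s, _, hY => by
    simp only [DTree.label, DTree.yield, occ_cons]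
    simp [occ]
    exact le_rfl
  | DTree.node Y ts, h, hY => by
    simp only [DTree.IsDerivation] at h
    obtain ⟨h1, h2⟩ := h
    obtain ⟨hc, hl⟩ := hr _ _ h1
    have hYX := hY Y rfl
    have h3 := occ_yieldL_le G rank hr X ts h2 (by
      intro Z hZ
      rcases hl Z hZ with rfl | h
      · exact hYX
      · left; omega)
    simp only [DTree.label, DTree.yield, Sum.inl.injEq]
    by_cases hXY : Y = X
    · subst hXY
      simpa using le_trans h3 hc
    · rw [if_neg hXY]
      refine le_trans h3 (le_of_eq ?_)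
      unfold occ
      rw [List.countP_eq_zero]
      intro s hs
      simp only [decide_eq_true_eq]
      rintro rfl
      rcases hl X hs with h | h
      · exact hXY h.symm
      · omega

theorem occ_yieldL_le (G : GVAS N) (rank : N → ℕ)
    (hr : ∀ X α, (X, α) ∈ G.rules → occ X α ≤ 1 ∧
      ∀ Y, Sum.inl Y ∈ α → Y = X ∨ rank Y < rank X) (X : N) :
    ∀ ts : DForest N, ts.AreDerivations G →
      (∀ Y, Sum.inl Y ∈ ts.labels → rank Y < rank X ∨ rank Y = rank X) →
        occ X ts.yield ≤ occ X ts.labels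
  | DForest.nil, _, _ => by simp [DForest.yield, DForest.labels]
  | DForest.cons t ts, h, hY => by
    simp only [DForest.AreDerivations] at h
    simp only [DForest.labels, List.mem_cons] at hY
    have h1 := occ_yield_le G rank hr X t h.1 fun Y e => hY Y (Or.inl e.symm)
    have h2 := occ_yieldL_le G rank hr X ts h.2 fun Y e => hY Y (Or.inr e)
    simp only [DForest.yield, DForest.labels, occ_append, occ_cons]
    omega
end

theorem thin_of_rank (G : GVAS N) (rank : N → ℕ)
    (hr : ∀ X α, (X, α) ∈ G.rules → occ X α ≤ 1 ∧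
      ∀ Y, Sum.inl Y ∈ α → Y = X ∨ rank Y < rank X) : G.Thin := by
  rintro X ⟨t, h1, h2, α, β, γ, h3⟩
  have h4 := occ_yield_le G rank hr X t h1 (by
    intro Y hY
    rw [h2] at hY
    obtain rfl := Sum.inl.inj hY
    exact Or.inr rfl)
  rw [h3, h2, if_pos rfl] at h4
  simp only [occ, List.countP_append, List.countP_singleton, decide_true, if_true] at h4
  omega

end Pool.Agent.K1H72.OneGVAS
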