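import Pool.Agent.K1H72.GVAS.Lower

/-!
# `gram m` leads from `0` to `0`; `gram m` is thin
-/

set_option autoImplicit false

namespace Pool.Agent.K1H72.OneGVAS

open Sum

/-- existence of a complete derivation -/
def Ex (m : ℕ) (s : Sym (NT m)) (x y : ℤ) : Prop := ∃ n, Der (gram m) s n x y

theorem ex_int (m : ℕ) (k x : ℤ) (h0 : 0 ≤ x) (h1 : 0 ≤ x + k) : Ex m (inr k) x (x + k) :=
  ⟨1, (der_int _ _ _ _ _).2 ⟨rfl, h0, h1, rfl⟩⟩

theorem exL_nil (m : ℕ) (x : ℤ) (h : 0 ≤ x) : ∃ n, DerL (gram m) [] n x x :=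
  ⟨0, (derL_nil _ _ _ _).2 ⟨rfl, h, rfl⟩⟩

theorem exL_cons (m : ℕ) (s : Sym (NT m)) (α : List (Sym (NT m))) (x y z : ℤ) (h : Ex m s x y)
    (h' : ∃ n, DerL (gram m) α n y z) : ∃ n, DerL (gram m) (s :: α) n x z := by
  obtain ⟨n1, h⟩ := h
  obtain ⟨n2, h'⟩ := h'
  exact ⟨n1 + n2, (derL_cons _ _ _ _ _ _).2 ⟨n1, n2, y, rfl, h, h'⟩⟩

theorem ex_nt (m : ℕ) (X : NT m) (α : List (Sym (NT m))) (h : (X, α) ∈ (gram m).rules)
    (x y : ℤ) (h' : ∃ n, DerL (gram m) α n x y) : Ex m (inl X) x y := by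
  obtain ⟨n, h'⟩ := h'
  exact ⟨1 + n, (der_nt _ _ _ _ _).2 ⟨α, n, h, rfl, h'⟩⟩

theorem ex_nonneg (m : ℕ) (s : Sym (NT m)) (x y : ℤ) (h : Ex m s x y) : 0 ≤ y := by
  obtain ⟨n, h⟩ := h
  exact (der_nonneg _ _ _ _ _ h).2

theorem ex_rule1 (m : ℕ) (X : NT m) (s₁ : Sym (NT m)) (h : (X, [s₁]) ∈ (gram m).rules)
    (x y : ℤ) (h1 : Ex m s₁ x y) : Ex m (inl X) x y :=
  ex_nt m X _ h _ _ (exL_cons m _ _ _ _ _ h1 (exL_nil m _ (ex_nonneg m _ _ _ h1)))

theorem ex_rule2 (m : ℕ) (X : NT m) (s₁ s₂ : Sym (NT m)) (h : (X, [s₁, s₂]) ∈ (gram m).rules)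
    (x y z : ℤ) (h1 : Ex m s₁ x y) (h2 : Ex m s₂ y z) : Ex m (inl X) x z :=
  ex_nt m X _ h _ _ (exL_cons m _ _ _ _ _ h1
    (exL_cons m _ _ _ _ _ h2 (exL_nil m _ (ex_nonneg m _ _ _ h2))))

theorem ex_rule3 (m : ℕ) (X : NT m) (s₁ s₂ s₃ : Sym (NT m))
    (h : (X, [s₁, s₂, s₃]) ∈ (gram m).rules)
    (x y z w : ℤ) (h1 : Ex m s₁ x y) (h2 : Ex m s₂ y z) (h3 : Ex m s₃ z w) :
    Ex m (inl X) x w :=
  ex_nt m X _ h _ _ (exL_cons m _ _ _ _ _ h1
    (exL_cons m _ _ _ _ _ h2 (exL_cons m _ _ _ _ _ h3 (exL_nil m _ (ex_nonneg m _ _ _ h3)))))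

theorem ex_U_zero (m : ℕ) (i : Fin (m + 1)) (k : ℕ) : ∀ x : ℤ, (dd m i : ℤ) * k ≤ x →
    Ex m (inl (NT.U i 0)) x (x + ((cc m i : ℤ) - dd m i) * k) := by
  have hd : (0 : ℤ) < dd m i := by exact_mod_cast dd_pos m i
  have hcd : (dd m i : ℤ) ≤ cc m i := by exact_mod_cast dd_le_cc m i
  induction k with
  | zero =>
    intro x hx
    simp only [Nat.cast_zero, mul_zero] at hx ⊢
    exact ex_rule1 m _ (inr 0) ((rule_U_zero m i _).2 (Or.inl rfl)) _ _
      (ex_int m 0 x hx (by simpa using hx))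
  | succ k ih =>
    intro x hx
    push_cast at hx ⊢
    have h0 : (0 : ℤ) ≤ dd m i * k := by positivity
    have hk : (dd m i : ℤ) * k ≤ x + -(dd m i : ℤ) := by linarith
    have h1 := ih _ hk
    have h2 : 0 ≤ ((cc m i : ℤ) - dd m i) * k := mul_nonneg (sub_nonneg.2 hcd) (by positivity)
    refine ex_rule3 m _ _ _ _ ((rule_U_zero m i _).2 (Or.inr rfl)) x _ _ _
      (ex_int m _ x (by linarith) (by linarith)) h1 ?_
    have := ex_int m (cc m i : ℤ) (x + -(dd m i : ℤ) + ((cc m i : ℤ) - dd m i) * k)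
      (by linarith) (by linarith)
    convert this using 1
    ring

theorem ex_U (m : ℕ) (i k : Fin (m + 1)) : ∀ x : ℕ,
    Ex m (inl (NT.U i k)) ((x * dd m i ^ (2 ^ (k : ℕ)) : ℕ) : ℤ)
      ((x * cc m i ^ (2 ^ (k : ℕ)) : ℕ) : ℤ) := by
  induction k using Fin.induction with
  | zero =>
    intro x
    have := ex_U_zero m i x ((x * dd m i : ℕ) : ℤ) (by push_cast; linarith)
    simp only [Fin.val_zero, pow_zero, pow_one]
    convert this using 1
    push_cast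
    ring
  | succ k ih =>
    intro x
    have h1 := ih (x * dd m i ^ (2 ^ (k : ℕ)))
    have h2 := ih (x * cc m i ^ (2 ^ (k : ℕ)))
    simp only [Fin.val_castSucc] at h1 h2
    have e1 : x * dd m i ^ (2 ^ ((k.succ : Fin (m + 1)) : ℕ)) =
        x * dd m i ^ (2 ^ (k : ℕ)) * dd m i ^ (2 ^ (k : ℕ)) := by
      rw [Fin.val_succ, pow_succ, pow_mul]; ring
    have e2 : x * cc m i ^ (2 ^ ((k.succ : Fin (m + 1)) : ℕ)) =
        x * cc m i ^ (2 ^ (k : ℕ)) * cc m i ^ (2 ^ (k : ℕ)) := by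
      rw [Fin.val_succ, pow_succ, pow_mul]; ring
    rw [e1, e2]
    refine ex_rule2 m _ _ _ ((rule_U_succ m i k _).2 rfl) _ _ _ h1 ?_
    convert h2 using 2
    ring

theorem ex_H (m : ℕ) (i : Fin (m + 1)) : ∃ D E : ℕ, 0 < D ∧ E * bb i = D * aa i ∧
    ∀ x : ℕ, Ex m (inl (NT.H i)) ((x * D : ℕ) : ℤ) ((x * E : ℕ) : ℤ) := by
  induction i using Fin.reverseInduction with
  | last =>
    refine ⟨dd m m ^ (2 ^ m), cc m m ^ (2 ^ m), pow_pos (dd_pos m m) _, ?_, ?_⟩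
    · rw [dd_pow_top, cc_pow_top, Fin.val_last, mul_comm]
    · intro x
      have := ex_U m (Fin.last m) (Fin.last m) x
      simp only [Fin.val_last] at this
      exact ex_rule1 m _ _ ((rule_H_last m _).2 rfl) _ _ this
  | cast i ih =>
    obtain ⟨D, E, hD, hE, h⟩ := ih
    simp only [Fin.val_succ] at hE
    have hi : (i : ℕ) ≠ m := by have := i.2; omega
    refine ⟨D * dd m i ^ (2 ^ (i : ℕ)), E * cc m i ^ (2 ^ (i : ℕ)),
      Nat.mul_pos hD (pow_pos (dd_pos m i) _), ?_, ?_⟩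
    · simp only [Fin.val_castSucc]
      rw [dd_pow m i hi, cc_pow m i hi]
      calc E * (aa i * bb (i + 1)) * bb i = (E * bb (i + 1)) * (aa i * bb i) := by ring
        _ = (D * aa (i + 1)) * (aa i * bb i) := by rw [hE]
        _ = D * (bb i * aa (i + 1)) * aa i := by ring
    · intro x
      have h1 := h (x * dd m i ^ (2 ^ (i : ℕ)))
      have h2 := ex_U m i.castSucc i.castSucc (x * E)
      simp only [Fin.val_castSucc] at h2
      refine ex_rule2 m _ _ _ ((rule_H m i _).2 rfl) _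
        ((x * dd m i ^ (2 ^ (i : ℕ)) * E : ℕ) : ℤ) _ ?_ ?_
      · convert h1 using 2
        ring
      · convert h2 using 2
        · ring
        · ring

theorem ex_T (m : ℕ) (D E : ℕ) (h : Ex m (inl (NT.H 0)) D E) (j : ℕ) : ∀ x y : ℕ,
    x + j = D → y + 2 * j = E → Ex m (inl NT.T) x y := by
  induction j with
  | zero =>
    intro x y hx hy
    obtain rfl : x = D := by omega
    obtain rfl : y = E := by omega
    exact ex_rule1 m _ _ ((rule_T m _).2 (Or.inr rfl)) _ _ h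
  | succ j ih =>
    intro x y hx hy
    have h1 := ih (x + 1) (y + 2) (by omega) (by omega)
    refine ex_rule3 m _ _ _ _ ((rule_T m _).2 (Or.inl rfl)) _ ((x + 1 : ℕ) : ℤ)
      ((y + 2 : ℕ) : ℤ) _ ?_ h1 ?_
    · have := ex_int m 1 x (by positivity) (by positivity)
      push_cast
      exact this
    · have := ex_int m (-2) ((y + 2 : ℕ) : ℤ) (by positivity) (by push_cast; omega)
      convert this using 1
      push_cast
      ring

theorem ex_S (m : ℕ) : Ex m (inl NT.S) 0 0 := by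
  obtain ⟨D, E, hD, hE, h⟩ := ex_H m 0
  have h1 := h 1
  simp only [one_mul] at h1
  have hE' : E = D * 2 := by
    simpa [aa, bb] using hE
  have h2 := ex_T m D E h1 (D - 1) 1 2 (by omega) (by omega)
  refine ex_rule3 m _ _ _ _ ((rule_S m _).2 rfl) _ _ _ _
    (by simpa using ex_int m 1 0 le_rfl (by norm_num)) h2 ?_
  simpa using ex_int m (-2) 2 (by norm_num) (by norm_num)

end Pool.Agent.K1H72.OneGVAS
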