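import Pool.Agent.K1H72.GVAS.Exists

/-!
# Thinness, size and the final estimate
-/

set_option autoImplicit false

namespace Pool.Agent.K1H72.OneGVAS

open Sum

/-- rank of a nonterminal -/
def rk (m : ℕ) : NT m → ℕ
  | NT.S => 2 * m + 3
  | NT.T => 2 * m + 2
  | NT.H i => m + 1 + (m - i)
  | NT.U _ k => k

theorem gram_rules_cases (m : ℕ) (X : NT m) (α : List (Sym (NT m)))
    (h : (X, α) ∈ (gram m).rules) :
    (X = NT.S ∧ α = [inr 1, inl NT.T, inr (-2)]) ∨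
    (X = NT.T ∧ (α = [inr 1, inl NT.T, inr (-2)] ∨ α = [inl (NT.H 0)])) ∨
    (X = NT.H (Fin.last m) ∧ α = [inl (NT.U (Fin.last m) (Fin.last m))]) ∨
    (∃ i : Fin m, X = NT.H i.castSucc ∧ α = [inl (NT.H i.succ), inl (NT.U i.castSucc i.castSucc)]) ∨
    (∃ i : Fin (m + 1), X = NT.U i 0 ∧
      (α = [inr 0] ∨ α = [inr (-(dd m i : ℤ)), inl (NT.U i 0), inr (cc m i : ℤ)])) ∨
    (∃ (i : Fin (m + 1)) (k : Fin m), X = NT.U i k.succ ∧
      α = [inl (NT.U i k.castSucc), inl (NT.U i k.castSucc)]) := by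
  cases X with
  | S => exact Or.inl ⟨rfl, (rule_S m α).1 h⟩
  | T => exact Or.inr (Or.inl ⟨rfl, (rule_T m α).1 h⟩)
  | H i =>
    induction i using Fin.lastCases with
    | last => exact Or.inr (Or.inr (Or.inl ⟨rfl, (rule_H_last m α).1 h⟩))
    | cast i => exact Or.inr (Or.inr (Or.inr (Or.inl ⟨i, rfl, (rule_H m i α).1 h⟩)))
  | U i k =>
    induction k using Fin.cases with
    | zero =>
      exact Or.inr (Or.inr (Or.inr (Or.inr (Or.inl ⟨i, rfl, (rule_U_zero m i α).1 h⟩))))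
    | succ k =>
      exact Or.inr (Or.inr (Or.inr (Or.inr (Or.inr ⟨i, k, rfl, (rule_U_succ m i k α).1 h⟩))))

theorem gram_thin (m : ℕ) : (gram m).Thin := by
  apply thin_of_rank (gram m) (rk m)
  intro X α h
  rcases gram_rules_cases m X α h with ⟨rfl, rfl⟩ | ⟨rfl, rfl | rfl⟩ | ⟨rfl, rfl⟩ |
    ⟨i, rfl, rfl⟩ | ⟨i, rfl, rfl | rfl⟩ | ⟨i, k, rfl, rfl⟩
  · simp [occ, rk]
  · simp [occ]
  · simp [occ, rk]; omega
  · simp [occ, rk]
  · have := i.2
    have h1 : i.succ ≠ i.castSucc := by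
      intro h; have := congrArg Fin.val h; simp at this
    simp [occ, rk, h1]
    omega
  · simp [occ]
  · simp [occ]
  · have h1 : k.castSucc ≠ k.succ := by
      intro h; have := congrArg Fin.val h; simp at this
    simp [occ, rk, h1]

theorem gram_no_eps (m : ℕ) : ∀ r ∈ (gram m).rules, r.2 ≠ [] := by
  rintro ⟨X, α⟩ h
  rcases gram_rules_cases m X α h with ⟨rfl, rfl⟩ | ⟨rfl, rfl | rfl⟩ | ⟨rfl, rfl⟩ |
    ⟨i, rfl, rfl⟩ | ⟨i, rfl, rfl | rfl⟩ | ⟨i, k, rfl, rfl⟩ <;> simp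

theorem cc_lt (m i : ℕ) (hi : i ≤ m) : cc m i < 2 ^ (6 * m + 6) := by
  have h3 : ∀ n : ℕ, 3 ^ n ≤ 2 ^ (2 * n) := by
    intro n
    rw [pow_mul]
    exact Nat.pow_le_pow_left (by norm_num) n
  have h31 : ∀ n : ℕ, 3 ^ n + 1 ≤ 2 ^ (2 * n + 1) := by
    intro n
    have h1 := h3 n
    have h2 : 1 ≤ 2 ^ (2 * n) := Nat.one_le_pow _ _ (by norm_num)
    rw [pow_succ]
    omega
  unfold cc
  split_ifs with h
  · calc 3 ^ m + 1 ≤ 2 ^ (2 * m + 1) := h31 m
      _ < 2 ^ (6 * m + 6) := Nat.pow_lt_pow_right (by norm_num) (by omega)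
  · calc (3 ^ i + 1) * (3 ^ (i + 1)) ^ 2 ≤ 2 ^ (2 * i + 1) * (2 ^ (2 * (i + 1))) ^ 2 :=
        Nat.mul_le_mul (h31 i) (Nat.pow_le_pow_left (h3 _) 2)
      _ = 2 ^ (6 * i + 5) := by rw [← pow_mul, ← pow_add]; congr 1; ring
      _ < 2 ^ (6 * m + 6) := Nat.pow_lt_pow_right (by norm_num) (by omega)

theorem bits_cc (m i : ℕ) (hi : i ≤ m) : GVAS.bits (cc m i : ℤ) ≤ 6 * m + 6 := by
  unfold GVAS.bits
  rw [Int.natAbs_natCast]
  exact max_le (by omega) (Nat.size_le.2 (cc_lt m i hi))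

theorem bits_dd (m i : ℕ) (hi : i ≤ m) : GVAS.bits (-(dd m i : ℤ)) ≤ 6 * m + 6 := by
  unfold GVAS.bits
  rw [Int.natAbs_neg, Int.natAbs_natCast]
  exact max_le (by omega) (Nat.size_le.2 (lt_of_le_of_lt (dd_le_cc m i) (cc_lt m i hi)))

theorem bits_small (m : ℕ) (z : ℤ) (hz : z.natAbs ≤ 2) : GVAS.bits z ≤ 6 * m + 6 := by
  unfold GVAS.bits
  refine max_le (by omega) (Nat.size_le.2 ?_)
  calc z.natAbs < 2 ^ 2 := by omega
    _ ≤ 2 ^ (6 * m + 6) := Nat.pow_le_pow_right (by norm_num) (by omega)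

theorem gram_rule_size (m : ℕ) : ∀ r ∈ (gram m).rules,
    r.2.length ≤ 3 ∧ GVAS.wordBits r.2 ≤ 2 * (6 * m + 6) := by
  rintro ⟨X, α⟩ h
  have b1 := bits_small m 1 (by norm_num)
  have b2 := bits_small m (-2) (by norm_num)
  have b0 := bits_small m 0 (by norm_num)
  rcases gram_rules_cases m X α h with ⟨rfl, rfl⟩ | ⟨rfl, rfl | rfl⟩ | ⟨rfl, rfl⟩ |
    ⟨i, rfl, rfl⟩ | ⟨i, rfl, rfl | rfl⟩ | ⟨i, k, rfl, rfl⟩
  · simp [GVAS.wordBits]; omega
  · simp [GVAS.wordBits]; omega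
  · simp [GVAS.wordBits]
  · simp [GVAS.wordBits]
  · simp [GVAS.wordBits]
  · simp [GVAS.wordBits]; omega
  · have c1 := bits_cc m i (by omega)
    have c2 := bits_dd m i (by omega)
    simp [GVAS.wordBits]; omega
  · simp [GVAS.wordBits]

theorem card_NT (m : ℕ) : Fintype.card (NT m) ≤ 4 * (m + 1) ^ 2 := by
  let f : NT m → Fin 4 × Fin (m + 1) × Fin (m + 1) := fun X =>
    match X with
    | NT.S => (0, 0, 0)
    | NT.T => (1, 0, 0)
    | NT.H i => (2, i, 0)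
    | NT.U i k => (3, i, k)
  have hf : Function.Injective f := by
    intro X Y h
    cases X <;> cases Y <;> simp_all [f]
  have := Fintype.card_le_of_injective f hf
  simp only [Fintype.card_prod, Fintype.card_fin] at this
  nlinarith

theorem card_rules (m : ℕ) : (gram m).rules.card ≤ 6 * (m + 1) ^ 2 := by
  unfold gram
  simp only
  refine le_trans (Finset.card_union_le _ _) ?_
  refine le_trans (Nat.add_le_add_right (Finset.card_union_le _ _) _) ?_
  refine le_trans (Nat.add_le_add_right (Nat.add_le_add_right (Finset.card_union_le _ _) _) _) ?_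
  refine le_trans (Nat.add_le_add_right (Nat.add_le_add_right (Nat.add_le_add_right
    (Finset.card_union_le _ _) _) _) _) ?_
  have h1 := Finset.card_image_le (s := Finset.univ) (f := fun i : Fin m =>
      ((NT.H i.castSucc, [inl (NT.H i.succ), inl (NT.U i.castSucc i.castSucc)]) :
        NT m × List (Sym (NT m))))
  have h2 := Finset.card_image_le (s := Finset.univ) (f := fun i : Fin (m + 1) =>
      ((NT.U i 0, [inr 0]) : NT m × List (Sym (NT m))))
  have h3 := Finset.card_image_le (s := Finset.univ) (f := fun i : Fin (m + 1) =>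
      ((NT.U i 0, [inr (-(dd m i : ℤ)), inl (NT.U i 0), inr (cc m i : ℤ)]) :
        NT m × List (Sym (NT m))))
  have h4 := Finset.card_image_le (s := Finset.univ) (f := fun p : Fin (m + 1) × Fin m =>
      ((NT.U p.1 p.2.succ, [inl (NT.U p.1 p.2.castSucc), inl (NT.U p.1 p.2.castSucc)]) :
        NT m × List (Sym (NT m))))
  have h0 : ({(NT.S, [inr 1, inl NT.T, inr (-2)]), (NT.T, [inr 1, inl NT.T, inr (-2)]),
      (NT.T, [inl (NT.H 0)]), (NT.H (Fin.last m), [inl (NT.U (Fin.last m) (Fin.last m))])} :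
      Finset (NT m × List (Sym (NT m)))).card ≤ 4 := Finset.card_le_four
  simp only [Finset.card_univ, Fintype.card_fin, Fintype.card_prod] at h1 h2 h3 h4
  calc _ ≤ 4 + m + (m + 1) + (m + 1) + (m + 1) * m := by
        gcongr
    _ ≤ 6 * (m + 1) ^ 2 := by nlinarith

theorem gram_size (m : ℕ) : (gram m).size ≤ 100 * (m + 1) ^ 3 := by
  have h1 : ∑ r ∈ (gram m).rules, r.2.length ≤ (gram m).rules.card * 3 := by
    rw [← smul_eq_mul]
    exact Finset.sum_le_card_nsmul _ _ _ fun r hr => (gram_rule_size m r hr).1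
  have h2 : ∑ r ∈ (gram m).rules, GVAS.wordBits r.2 ≤
      (gram m).rules.card * (2 * (6 * m + 6)) := by
    rw [← smul_eq_mul]
    exact Finset.sum_le_card_nsmul _ _ _ fun r hr => (gram_rule_size m r hr).2
  have h3 := card_rules m
  have h4 := card_NT m
  unfold GVAS.size
  have h5 : (gram m).rules.card * (2 * (6 * m + 6)) ≤ 6 * (m + 1) ^ 2 * (2 * (6 * m + 6)) :=
    Nat.mul_le_mul_right _ h3
  have h6 : (m + 1) ^ 2 ≤ (m + 1) ^ 3 := Nat.pow_le_pow_right (by omega) (by norm_num)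
  have h7 : 6 * (m + 1) ^ 2 * (2 * (6 * m + 6)) = 72 * (m + 1) ^ 3 := by ring
  omega

end Pool.Agent.K1H72.OneGVAS
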