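import Pool.Agent.K1H72.GVAS.Der

/-!
# The grammar `G m`
-/

set_option autoImplicit false

namespace Pool.Agent.K1H72.OneGVAS

/-- nonterminals -/
inductive NT (m : ℕ) : Type
  | S : NT m
  | T : NT m
  | H (i : Fin (m + 1)) : NT m
  | U (i k : Fin (m + 1)) : NT m
  deriving DecidableEq, Fintype

/-- numerators -/
def cc (m i : ℕ) : ℕ := if i = m then 3 ^ m + 1 else (3 ^ i + 1) * (3 ^ (i + 1)) ^ 2
/-- denominators -/
def dd (m i : ℕ) : ℕ := if i = m then 3 ^ m else 3 ^ i * (3 ^ (i + 1) + 1) ^ 2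

theorem dd_pos (m i : ℕ) : 0 < dd m i := by
  unfold dd; split_ifs <;> positivity

theorem dd_le_cc (m i : ℕ) : dd m i ≤ cc m i := by
  unfold dd cc
  split_ifs
  · omega
  · have h : 1 ≤ 3 ^ i := Nat.one_le_pow _ _ (by norm_num)
    have e : 3 ^ (i + 1) = 3 * 3 ^ i := by ring
    rw [e]
    generalize 3 ^ i = n at h
    nlinarith [mul_self_nonneg n]

open Sum

/-- The grammar. -/
def gram (m : ℕ) : GVAS (NT m) where
  start := NT.S
  rules :=
    {(NT.S, [inr 1, inl NT.T, inr (-2)]), (NT.T, [inr 1, inl NT.T, inr (-2)]),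
      (NT.T, [inl (NT.H 0)]), (NT.H (Fin.last m), [inl (NT.U (Fin.last m) (Fin.last m))])} ∪
    (Finset.univ.image fun i : Fin m =>
      (NT.H i.castSucc, [inl (NT.H i.succ), inl (NT.U i.castSucc i.castSucc)])) ∪
    (Finset.univ.image fun i : Fin (m + 1) => (NT.U i 0, [inr 0])) ∪
    (Finset.univ.image fun i : Fin (m + 1) =>
      (NT.U i 0, [inr (-(dd m i : ℤ)), inl (NT.U i 0), inr (cc m i : ℤ)])) ∪
    (Finset.univ.image fun p : Fin (m + 1) × Fin m =>
      (NT.U p.1 p.2.succ, [inl (NT.U p.1 p.2.castSucc), inl (NT.U p.1 p.2.castSucc)]))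

theorem rule_S (m : ℕ) (α : List (Sym (NT m))) :
    (NT.S, α) ∈ (gram m).rules ↔ α = [inr 1, inl NT.T, inr (-2)] := by
  simp [gram]

theorem rule_T (m : ℕ) (α : List (Sym (NT m))) :
    (NT.T, α) ∈ (gram m).rules ↔ α = [inr 1, inl NT.T, inr (-2)] ∨ α = [inl (NT.H 0)] := by
  simp [gram]

theorem rule_H_last (m : ℕ) (α : List (Sym (NT m))) :
    (NT.H (Fin.last m), α) ∈ (gram m).rules ↔ α = [inl (NT.U (Fin.last m) (Fin.last m))] := by
  simp [gram, Fin.castSucc_ne_last]

theorem rule_H (m : ℕ) (i : Fin m) (α : List (Sym (NT m))) :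
    (NT.H i.castSucc, α) ∈ (gram m).rules ↔
      α = [inl (NT.H i.succ), inl (NT.U i.castSucc i.castSucc)] := by
  constructor
  · intro h
    simp [gram] at h
    exact h.symm
  · rintro rfl
    simp [gram]

theorem rule_U_zero (m : ℕ) (i : Fin (m + 1)) (α : List (Sym (NT m))) :
    (NT.U i 0, α) ∈ (gram m).rules ↔
      α = [inr 0] ∨ α = [inr (-(dd m i : ℤ)), inl (NT.U i 0), inr (cc m i : ℤ)] := by
  constructor
  · intro h
    simp [gram] at h
    rcases h with h | h
    · exact Or.inl h.symm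
    · exact Or.inr h.symm
  · rintro (rfl | rfl)
    · simp [gram]
    · simp [gram]

theorem rule_U_succ (m : ℕ) (i : Fin (m + 1)) (k : Fin m) (α : List (Sym (NT m))) :
    (NT.U i k.succ, α) ∈ (gram m).rules ↔
      α = [inl (NT.U i k.castSucc), inl (NT.U i k.castSucc)] := by
  constructor
  · intro h
    simp [gram] at h
    rcases h with h | h | h
    · exact absurd h.1.symm (Fin.succ_ne_zero _)
    · exact absurd h.1.symm (Fin.succ_ne_zero _)
    · exact h.symm
  · rintro rfl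
    simp [gram]

end Pool.Agent.K1H72.OneGVAS
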