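import Pool.Agent.K1H72.GVAS.Gram

/-!
# Derivations of `gram m` from `0` to `0` are long
-/

set_option autoImplicit false

namespace Pool.Agent.K1H72.OneGVAS

open Sum

theorem der_U_zero (m : ℕ) (i : Fin (m + 1)) : ∀ (n : ℕ) (x y : ℤ),
    Der (gram m) (inl (NT.U i 0)) n x y →
      ∃ k : ℕ, (dd m i : ℤ) * k ≤ x ∧ y = x + ((cc m i : ℤ) - dd m i) * k := by
  intro n
  induction n using Nat.strong_induction_on with
  | _ n ih =>
    intro x y h
    have hx := (der_nonneg _ _ _ _ _ h).1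
    rw [der_nt] at h
    obtain ⟨α, n', h1, h2, h3⟩ := h
    rw [rule_U_zero] at h1
    rcases h1 with rfl | rfl
    · simp only [derL_cons, derL_nil, der_int] at h3
      obtain ⟨_, _, w, _, ⟨_, _, _, rfl⟩, _, _, rfl⟩ := h3
      exact ⟨0, by simpa using hx, by simp⟩
    · simp only [derL_cons, derL_nil, der_int] at h3
      obtain ⟨n1, n2, w1, e1, ⟨f1, f2, f3, rfl⟩, n3, n4, w2, e2, h4, n5, n6, w3, e3,
        ⟨g1, g2, g3, rfl⟩, g4, g5, rfl⟩ := h3
      obtain ⟨k, hk1, rfl⟩ := ih n3 (by omega) _ _ h4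
      refine ⟨k + 1, ?_, ?_⟩
      · push_cast; linarith
      · push_cast; ring

theorem der_U (m : ℕ) (i k : Fin (m + 1)) : ∀ (n : ℕ) (x y : ℤ),
    Der (gram m) (inl (NT.U i k)) n x y →
      y * (dd m i : ℤ) ^ (2 ^ (k : ℕ)) ≤ x * (cc m i : ℤ) ^ (2 ^ (k : ℕ)) := by
  have hd : (0 : ℤ) < dd m i := by exact_mod_cast dd_pos m i
  have hcd : (dd m i : ℤ) ≤ cc m i := by exact_mod_cast dd_le_cc m i
  induction k using Fin.induction with
  | zero =>
    intro n x y h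
    obtain ⟨k, hk1, rfl⟩ := der_U_zero m i n x y h
    simp only [Fin.val_zero, pow_zero, pow_one]
    nlinarith [mul_le_mul_of_nonneg_left hk1 (sub_nonneg.2 hcd)]
  | succ k ih =>
    intro n x y h
    rw [der_nt] at h
    obtain ⟨α, n', h1, h2, h3⟩ := h
    rw [rule_U_succ] at h1
    subst h1
    simp only [derL_cons, derL_nil] at h3
    obtain ⟨n1, n2, w1, e1, h4, n3, n4, w2, e2, h5, _, _, rfl⟩ := h3
    have a1 := ih _ _ _ h4
    have a2 := ih _ _ _ h5
    simp only [Fin.val_castSucc] at a1 a2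
    simp only [Fin.val_succ, pow_succ, pow_mul]
    set D := (dd m i : ℤ) ^ (2 ^ (k : ℕ)) with hD
    set C := (cc m i : ℤ) ^ (2 ^ (k : ℕ)) with hC
    have hD0 : 0 < D := by positivity
    have hC0 : 0 < C := by
      have : (0 : ℤ) < cc m i := lt_of_lt_of_le hd hcd
      positivity
    simp only [pow_zero, one_mul]
    calc w2 * (D * D) = (w2 * D) * D := by ring
      _ ≤ (w1 * C) * D := mul_le_mul_of_nonneg_right a2 hD0.le
      _ = (w1 * D) * C := by ring
      _ ≤ (x * C) * C := mul_le_mul_of_nonneg_right a1 hC0.le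
      _ = x * (C * C) := by ring

/-- numerators of the factors of `H i` -/
def aa (i : ℕ) : ℕ := (3 ^ i + 1) ^ (2 ^ i)
/-- denominators of the factors of `H i` -/
def bb (i : ℕ) : ℕ := (3 ^ i) ^ (2 ^ i)

theorem aa_pos (i : ℕ) : 0 < aa i := by unfold aa; positivity
theorem bb_pos (i : ℕ) : 0 < bb i := by unfold bb; positivity

theorem dd_pow (m i : ℕ) (hi : i ≠ m) : dd m i ^ (2 ^ i) = bb i * aa (i + 1) := by
  unfold dd bb aa
  rw [if_neg hi, mul_pow, ← pow_mul (3 ^ (i + 1) + 1), pow_succ 2 i, mul_comm 2 (2 ^ i)]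

theorem cc_pow (m i : ℕ) (hi : i ≠ m) : cc m i ^ (2 ^ i) = aa i * bb (i + 1) := by
  unfold cc bb aa
  rw [if_neg hi, mul_pow, ← pow_mul (3 ^ (i + 1)), pow_succ 2 i, mul_comm 2 (2 ^ i)]

theorem dd_pow_top (m : ℕ) : dd m m ^ (2 ^ m) = bb m := by
  unfold dd bb; rw [if_pos rfl]

theorem cc_pow_top (m : ℕ) : cc m m ^ (2 ^ m) = aa m := by
  unfold cc aa; rw [if_pos rfl]

theorem coprime_aa_bb (i : ℕ) : Nat.Coprime (bb i) (aa i) := by
  unfold aa bb
  apply Nat.Coprime.pow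
  simp

theorem der_H (m : ℕ) (i : Fin (m + 1)) : ∀ (n : ℕ) (x y : ℤ),
    Der (gram m) (inl (NT.H i)) n x y →
      y * (bb i : ℤ) ≤ x * (aa i : ℤ) ∧ (y * (bb i : ℤ) = x * (aa i : ℤ) → (bb m : ℤ) ∣ x) := by
  induction i using Fin.reverseInduction with
  | last =>
    intro n x y h
    rw [der_nt] at h
    obtain ⟨α, n', h1, h2, h3⟩ := h
    rw [rule_H_last] at h1
    subst h1
    simp only [derL_cons, derL_nil] at h3
    obtain ⟨n1, n2, w1, e1, h4, _, _, rfl⟩ := h3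
    have a1 := der_U m _ _ _ _ _ h4
    simp only [Fin.val_last] at a1 ⊢
    have e1 : ((dd m m : ℤ)) ^ (2 ^ m) = bb m := by exact_mod_cast dd_pow_top m
    have e2 : ((cc m m : ℤ)) ^ (2 ^ m) = aa m := by exact_mod_cast cc_pow_top m
    rw [e1, e2] at a1
    refine ⟨a1, ?_⟩
    intro h
    have h' : (bb m : ℤ) ∣ x * (aa m : ℤ) := by rw [← h]; exact Dvd.intro_left _ rfl
    exact (Nat.isCoprime_iff_coprime.2 (coprime_aa_bb m)).dvd_of_dvd_mul_right h'
  | cast i ih =>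
    intro n x y h
    rw [der_nt] at h
    obtain ⟨α, n', h1, h2, h3⟩ := h
    rw [rule_H] at h1
    subst h1
    simp only [derL_cons, derL_nil] at h3
    obtain ⟨n1, n2, w1, e1, h4, n3, n4, w2, e2, h5, _, _, rfl⟩ := h3
    have a1 := der_U m _ _ _ _ _ h5
    obtain ⟨b1, b2⟩ := ih _ _ _ h4
    simp only [Fin.val_castSucc, Fin.val_succ] at a1 b1 b2 ⊢
    have hi : (i : ℕ) ≠ m := by have := i.2; omega
    have e1 : ((dd m i : ℤ)) ^ (2 ^ (i : ℕ)) = bb i * aa (i + 1) := by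
      exact_mod_cast dd_pow m i hi
    have e2 : ((cc m i : ℤ)) ^ (2 ^ (i : ℕ)) = aa i * bb (i + 1) := by
      exact_mod_cast cc_pow m i hi
    rw [e1, e2] at a1
    have p1 : (0 : ℤ) < aa i := by exact_mod_cast aa_pos i
    have p2 : (0 : ℤ) < aa (i + 1) := by exact_mod_cast aa_pos (i + 1)
    have p3 : (0 : ℤ) < bb i := by exact_mod_cast bb_pos i
    have p4 : (0 : ℤ) < bb (i + 1) := by exact_mod_cast bb_pos (i + 1)
    have key : (w2 * bb i) * aa (i + 1) ≤ (x * aa i) * aa (i + 1) := by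
      calc (w2 * bb i) * (aa (i + 1) : ℤ) = w2 * (bb i * aa (i + 1)) := by ring
        _ ≤ w1 * (aa i * bb (i + 1)) := a1
        _ = (w1 * bb (i + 1)) * aa i := by ring
        _ ≤ (x * aa (i + 1)) * aa i := mul_le_mul_of_nonneg_right b1 p1.le
        _ = (x * aa i) * aa (i + 1) := by ring
    refine ⟨le_of_mul_le_mul_right key p2, ?_⟩
    intro h
    apply b2
    apply le_antisymm b1
    have : (x * aa (i + 1)) * (aa i : ℤ) ≤ (w1 * bb (i + 1)) * aa i := by
      calc (x * aa (i + 1)) * (aa i : ℤ) = (x * aa i) * aa (i + 1) := by ring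
        _ = w2 * (bb i * aa (i + 1)) := by rw [← h]; ring
        _ ≤ w1 * (aa i * bb (i + 1)) := a1
        _ = (w1 * bb (i + 1)) * aa i := by ring
    exact le_of_mul_le_mul_right this p1

theorem der_T (m : ℕ) : ∀ (n : ℕ) (x y : ℤ), Der (gram m) (inl NT.T) n x y →
    ∃ (j : ℕ) (n' : ℕ) (w : ℤ), j + 1 ≤ n ∧ Der (gram m) (inl (NT.H 0)) n' (x + j) w ∧
      y = w - 2 * j := by
  intro n
  induction n using Nat.strong_induction_on with
  | _ n ih =>
    intro x y h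
    rw [der_nt] at h
    obtain ⟨α, n', h1, h2, h3⟩ := h
    rw [rule_T] at h1
    rcases h1 with rfl | rfl
    · simp only [derL_cons, derL_nil, der_int] at h3
      obtain ⟨n1, n2, w1, e1, ⟨f1, f2, f3, rfl⟩, n3, n4, w2, e2, h4, n5, n6, w3, e3,
        ⟨g1, g2, g3, rfl⟩, g4, g5, rfl⟩ := h3
      obtain ⟨j, n'', w, hj, hw, rfl⟩ := ih n3 (by omega) _ _ h4
      refine ⟨j + 1, n'', w, by omega, ?_, ?_⟩
      · push_cast
        rw [show x + ((j : ℤ) + 1) = x + 1 + j by ring]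
        exact hw
      · push_cast; ring
    · simp only [derL_cons, derL_nil] at h3
      obtain ⟨n1, n2, w1, e1, h4, _, _, rfl⟩ := h3
      exact ⟨0, n1, w1, by omega, by simpa using h4, by simp⟩

theorem der_S (m : ℕ) (n : ℕ) (h : Der (gram m) (inl NT.S) n 0 0) : bb m < n := by
  rw [der_nt] at h
  obtain ⟨α, n', h1, h2, h3⟩ := h
  rw [rule_S] at h1
  subst h1
  simp only [derL_cons, derL_nil, der_int] at h3
  obtain ⟨n1, n2, w1, e1, ⟨f1, f2, f3, rfl⟩, n3, n4, w2, e2, h4, n5, n6, w3, e3,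
    ⟨g1, g2, g3, g0⟩, g4, g5, rfl⟩ := h3
  obtain ⟨j, n'', w, hj, hw, hy⟩ := der_T m _ _ _ h4
  have hw2 : w = 2 * (j + 1) := by omega
  have h5 := (der_H m 0 _ _ _ hw).2 (by
    simp only [Fin.val_zero, aa, bb]
    rw [hw2]
    push_cast
    ring)
  have h6 : (bb m : ℤ) ≤ 0 + 1 + j := Int.le_of_dvd (by positivity) h5
  omega

end Pool.Agent.K1H72.OneGVAS
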