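import Pool.Agent.K1H72.GVAS.Final

/-!
# No exponential bound for derivations of thin 1-GVAS
-/

set_option autoImplicit false

namespace Pool.Agent.K1H72.OneGVAS

open Filter Asymptotics Polynomial

theorem poly_lt_two_pow (Q : ℝ[X]) : ∀ᶠ m : ℕ in atTop, Q.eval (m : ℝ) < 2 ^ m := by
  have h1 : (fun m : ℕ => Q.eval (m : ℝ)) =o[atTop] fun m : ℕ => (2 : ℝ) ^ m := by
    have : (fun m : ℕ => Q.eval (m : ℝ)) =
        fun m : ℕ => ∑ i ∈ Finset.range (Q.natDegree + 1), Q.coeff i * (m : ℝ) ^ i := by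
      funext m
      exact Polynomial.eval_eq_sum_range _
    rw [this]
    apply IsLittleO.fun_sum
    intro i _
    exact (isLittleO_pow_const_const_pow_of_one_lt i (by norm_num : (1 : ℝ) < 2)).const_mul_left _
  have h2 := h1.bound (show (0 : ℝ) < 1 / 2 by norm_num)
  filter_upwards [h2] with m hm
  have h3 : (0 : ℝ) < 2 ^ m := by positivity
  rw [Real.norm_of_nonneg h3.le] at hm
  have h4 : Q.eval (m : ℝ) ≤ ‖Q.eval (m : ℝ)‖ := Real.le_norm_self _
  linarith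

/-- polynomial with the absolute values of the coefficients -/
noncomputable def absP (P : ℝ[X]) : ℝ[X] :=
  ∑ i ∈ Finset.range (P.natDegree + 1), C |P.coeff i| * X ^ i

theorem eval_le_absP (P : ℝ[X]) (x y : ℝ) (hx : 0 ≤ x) (hxy : x ≤ y) :
    P.eval x ≤ (absP P).eval y := by
  rw [Polynomial.eval_eq_sum_range, absP, Polynomial.eval_finsetSum]
  refine Finset.sum_le_sum fun i _ => ?_
  simp only [eval_mul, eval_C, eval_pow, eval_X]
  calc P.coeff i * x ^ i ≤ |P.coeff i| * x ^ i :=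
        mul_le_mul_of_nonneg_right (le_abs_self _) (by positivity)
    _ ≤ |P.coeff i| * y ^ i :=
        mul_le_mul_of_nonneg_left (pow_le_pow_left₀ hx hxy i) (abs_nonneg _)

theorem bb_ge (m : ℕ) (hm : 1 ≤ m) : 2 ^ (2 ^ m) ≤ bb m := by
  unfold bb
  apply Nat.pow_le_pow_left
  calc 2 ≤ 3 ^ 1 := by norm_num
    _ ≤ 3 ^ m := Nat.pow_le_pow_right (by norm_num) hm

theorem exists_derivation (m : ℕ) : ∃ t, (gram m).DerivesFromTo t 0 0 := by
  obtain ⟨n, t, h1, h2, h3, z, h4, h5⟩ := ex_S m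
  rw [run_iff] at h5
  exact ⟨t, h1, h2, z, h4, by simpa using h5.1, by simpa using h5.2⟩

theorem size_of_derivation (m : ℕ) (t : DTree (NT m)) (h : (gram m).DerivesFromTo t 0 0) :
    bb m < t.size := by
  obtain ⟨h1, h2, z, h4, h5, h6⟩ := h
  apply der_S m
  refine ⟨t, h1, h2, rfl, z, h4, ?_⟩
  rw [run_iff]
  exact ⟨by simpa using h5, by simpa using h6⟩

theorem main (P : ℝ[X]) :
    ∃ (N : Type) (_ : Fintype N) (G : GVAS N) (a b : ℕ), G.Thin ∧ (∀ r ∈ G.rules, r.2 ≠ []) ∧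
      (∃ t, G.DerivesFromTo t a b) ∧
      ∀ t, G.DerivesFromTo t a b →
        (2 : ℝ) ^ (P.eval ((G.size + GVAS.bits a + GVAS.bits b : ℕ) : ℝ)) < (t.size : ℝ) := by
  set Q : ℝ[X] := (absP P).comp (C 102 * (X + 1) ^ 3) with hQ
  obtain ⟨m, hm1, hm⟩ := ((eventually_ge_atTop 1).and (poly_lt_two_pow Q)).exists
  refine ⟨NT m, inferInstance, gram m, 0, 0, gram_thin m, gram_no_eps m, exists_derivation m, ?_⟩
  intro t ht
  have h1 := size_of_derivation m t ht
  have hb : GVAS.bits ((0 : ℕ) : ℤ) = 1 := by simp [GVAS.bits]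
  rw [hb]
  have h2 : ((gram m).size + 1 + 1 : ℕ) ≤ 102 * (m + 1) ^ 3 := by
    have := gram_size m
    have h : 1 ≤ (m + 1) ^ 3 := Nat.one_le_pow _ _ (by omega)
    omega
  have h3 : P.eval (((gram m).size + 1 + 1 : ℕ) : ℝ) ≤ Q.eval (m : ℝ) := by
    rw [hQ, eval_comp]
    apply eval_le_absP _ _ _ (by positivity)
    simp only [eval_mul, eval_C, eval_pow, eval_add, eval_X, eval_one]
    exact_mod_cast h2
  calc (2 : ℝ) ^ (P.eval (((gram m).size + 1 + 1 : ℕ) : ℝ)) ≤ (2 : ℝ) ^ ((2 ^ m : ℕ) : ℝ) := by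
        apply Real.rpow_le_rpow_of_exponent_le (by norm_num)
        have hc : ((2 ^ m : ℕ) : ℝ) = 2 ^ m := by push_cast; rfl
        rw [hc]
        exact le_trans h3 hm.le
    _ = ((2 ^ (2 ^ m) : ℕ) : ℝ) := by rw [Real.rpow_natCast]; push_cast; rfl
    _ ≤ (bb m : ℝ) := by exact_mod_cast bb_ge m hm1
    _ < (t.size : ℝ) := by exact_mod_cast h1

end Pool.Agent.K1H72.OneGVAS
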